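import Pool.Agent.H629.GC.Fin
import Pool.Agent.H629.GC.P.A1
import Pool.Agent.H629.GC.P.A2
import Pool.Agent.H629.GC.P.A3
import Pool.Agent.H629.GC.P.A4
import Pool.Agent.H629.GC.P.B1
import Pool.Agent.H629.GC.P.B2a
import Pool.Agent.H629.GC.P.B2b
import Pool.Agent.H629.GC.P.B3
import Pool.Agent.H629.GC.P.C1
import Pool.Agent.H629.GC.P.C2
import Pool.Agent.H629.GC.P.C3
import Pool.Agent.H629.GC.P.C4
import Pool.Agent.H629.GC.P.D1
import Pool.Agent.H629.GC.P.D2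
import Pool.Agent.H629.GC.P.E0
import Pool.Agent.H629.GC.P.E1
import Pool.Agent.H629.GC.P.E2
import Pool.Agent.H629.GC.P.E3
import Pool.Agent.H629.GC.P.F1
import Pool.Agent.H629.GC.P.F2
import Pool.Agent.H629.GC.P.G1
import Pool.Agent.H629.GC.P.G2
import Pool.Agent.H629.GC.P.H
import Pool.Agent.H629.GC.P.ST
import Pool.Agent.H629.GC.P.T1
import Pool.Agent.H629.GC.P.T2
import Pool.Agent.H629.GC.P.T3

set_option autoImplicit false

/-!
# MP_b1920d_pr: moments and tails of the total mass of non-Gaussian multiplicative chaos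

Under the assumptions (a), (b), (d) of the problem (assumption (c) is not needed), for every
`0 < β < √(2d)` the total masses `μ_n(I; β)` converge almost surely to a random variable `M`, and

* `E[M ^ p] < ∞` if and only if `p < 2 d / β ^ 2` (for `p > 0`): the answer to Q1;
* `log P(M > t) / log t → - 2 d / β ^ 2` as `t → ∞`: logarithmic tail asymptotics (Q2).

So the threshold depends only on `d` and `β`, not on the law of the fields.
-/

open MeasureTheory ProbabilityTheory Filter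
open scoped ENNReal Topology

namespace Pool.Agent.Results.MP_b1920d_pr.MomentsAndTails

noncomputable section

/-- The cube `I = [0, 1]^d` with the Euclidean distance. -/
abbrev Cube (d : ℕ) : Type := {x : EuclideanSpace ℝ (Fin d) // ∀ i, x i ∈ Set.Icc (0 : ℝ) 1}

/-- Lebesgue measure on the cube. -/
def cubeVol (d : ℕ) : Measure (Cube d) :=
  Measure.comap Subtype.val (volume : Measure (EuclideanSpace ℝ (Fin d)))

/-- The point `0` of the cube. -/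
def origin (d : ℕ) : Cube d := ⟨0, fun i => by simp⟩

/-- `min (log (1 / r)) t`, where `log (1 / 0) = ∞`. -/
def logMin (r t : ℝ) : ℝ := if r = 0 then t else min (Real.log (1 / r)) t

/-- The assumptions (a), (b), (d) of the problem; `X k` is the field `X_{k+1}`. -/
structure LogCorrelated {Ω : Type} [MeasurableSpace Ω] (P : Measure Ω) {d : ℕ}
    (X : ℕ → Cube d → Ω → ℝ) : Prop where
  /-- the values of the fields are random variables -/
  meas : ∀ k x, Measurable (X k x)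
  /-- almost surely continuous sample paths -/
  cont : ∀ k, ∀ᵐ ω ∂P, Continuous fun x => X k x ω
  /-- the fields are independent -/
  indep : iIndepFun (fun (k : ℕ) (ω : Ω) (x : Cube d) => X k x ω) P
  /-- the fields are centred -/
  centred : ∀ k x, ∫ ω, X k x ω ∂P = 0
  /-- (a), first part: the variances tend to `0` uniformly -/
  var : ∀ η : ℝ, 0 < η → ∀ᶠ k in atTop, ∀ x, ∫ ω, X k x ω ^ 2 ∂P ≤ η
  /-- (a), second part: the sum of the variances at `0` is infinite -/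
  div : ¬ Summable fun k => ∫ ω, X k (origin d) ω ^ 2 ∂P
  /-- (a), third part: the covariances -/
  cov : ∃ δ C : ℝ, 0 < δ ∧ ∀ (n : ℕ) (x y : Cube d), dist x y ≤ δ →
    |∑ k ∈ Finset.range n, ∫ ω, X k x ω * X k y ω ∂P -
      logMin (dist x y) (∑ k ∈ Finset.range n, ∫ ω, X k (origin d) ω ^ 2 ∂P)| ≤ C
  /-- (b) -/
  mom : ∃ ε C : ℝ, 0 < ε ∧ ∀ (x : Cube d) (n : ℕ),
    ∑ k ∈ Finset.range n, (∫ ω, |X k x ω| ^ (3 + ε) ∂P) ^ (3 / (3 + ε)) ≤ C
  /-- (d) -/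
  expm : ∀ t : ℝ, ∃ C : ℝ, ∀ k x, Integrable (fun ω => Real.exp (t * X k x ω)) P ∧
    ∫ ω, Real.exp (t * X k x ω) ∂P ≤ C

/-- The total mass `μ_n(I; β)`. -/
def mass {Ω : Type} [MeasurableSpace Ω] (P : Measure Ω) {d : ℕ} (X : ℕ → Cube d → Ω → ℝ)
    (β : ℝ) (n : ℕ) (ω : Ω) : ℝ :=
  ∫ x, Real.exp (β * ∑ k ∈ Finset.range n, X k x ω) /
    (∫ ω', Real.exp (β * ∑ k ∈ Finset.range n, X k x ω') ∂P) ∂(cubeVol d)

open Pool.Agent.H629.GC (S_A1 S_A1b S_A2 S_A3 S_A4 S_A5 S_C1 S_C2 S_C3 S_C4 S_D1 S_D2 S_D3 S_E0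
  S_E1 S_E2 S_E3 S_F1 S_F2 S_G1 S_G2 S_B1 S_B2a S_B2b S_B2 S_B3 S_H1 S_H2 S_H3 S_T1 S_T2 S_T3
  Base Hyp K Z gh W Ph S ev)
open Pool.Agent.H629.GC.Fin (S_CL)

section

variable {Ω : Type} [MeasurableSpace Ω] {P : Measure Ω} {d : ℕ}

theorem hyp_of {X X' : ℕ → Cube d → Ω → ℝ} (hX : LogCorrelated P X)
    (hb : Base P X') (he : ∀ᵐ ω ∂P, ∀ j x, X' j x ω = X j x ω) :
    ∃ δ ε C₀ : ℝ, Hyp P X' (origin d) δ ε C₀ := by
  obtain ⟨δ, C, hδ, hcov⟩ := hX.cov
  obtain ⟨ε, C', hε, hmom⟩ := hX.mom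
  have he' : ∀ j x, X' j x =ᵐ[P] X j x := fun j x => by
    filter_upwards [he] with ω hω using hω j x
  have hint : ∀ j x y, ∫ ω, X' j x ω * X' j y ω ∂P = ∫ ω, X j x ω * X j y ω ∂P := fun j x y =>
    integral_congr_ae ((he' j x).mul (he' j y))
  have hsq : ∀ j x, ∫ ω, X j x ω * X j x ω ∂P = ∫ ω, X j x ω ^ 2 ∂P := fun j x =>
    integral_congr_ae (Eventually.of_forall fun ω => by simp [sq])
  have hK : ∀ n x y, K P X' 0 n x y = ∑ k ∈ Finset.range n, ∫ ω, X k x ω * X k y ω ∂P :=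
    fun n x y => by
      unfold Pool.Agent.H629.GC.K
      rw [Finset.range_eq_Ico]
      exact Finset.sum_congr rfl fun j _ => hint j x y
  have hKo : ∀ n, K P X' 0 n (origin d) (origin d) =
      ∑ k ∈ Finset.range n, ∫ ω, X k (origin d) ω ^ 2 ∂P := fun n => by
    rw [hK]; exact Finset.sum_congr rfl fun j _ => hsq j _
  refine ⟨δ, ε, max C C', hb, ?_, ?_, ?_, ?_, ?_, hδ, hε⟩
  · intro j x
    rw [integral_congr_ae (he' j x)]; exact hX.centred j x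
  · intro t
    obtain ⟨C1, hC1⟩ := hX.expm t
    refine ⟨C1, fun j x => ?_⟩
    have h1 : (fun ω => Real.exp (t * X' j x ω)) =ᵐ[P] fun ω => Real.exp (t * X j x ω) := by
      filter_upwards [he' j x] with ω hω
      rw [hω]
    exact ⟨(hC1 j x).1.congr h1.symm, (integral_congr_ae h1).trans_le (hC1 j x).2⟩
  · have h1 := (not_summable_iff_tendsto_nat_atTop_of_nonneg
      (fun k => integral_nonneg fun ω => sq_nonneg (X k (origin d) ω))).1 hX.div
    exact h1.congr fun n => (hKo n).symm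
  · intro n x y hxy
    rw [hK, hKo]
    exact (hcov n x y hxy).trans (le_max_left _ _)
  · intro x n
    refine le_trans (le_of_eq ?_) ((hmom x n).trans (le_max_right _ _))
    refine Finset.sum_congr rfl fun j _ => ?_
    congr 1
    refine integral_congr_ae ?_
    filter_upwards [he' j x] with ω hω
    rw [hω]

omit [MeasurableSpace Ω] in
theorem W_single {X : ℕ → Cube d → Ω → ℝ} (β : ℝ) (x : Cube d) (n : ℕ) (ω : Ω) :
    W X [(β, x)] 0 n ω = ENNReal.ofReal (Real.exp (β * ∑ k ∈ Finset.range n, X k x ω)) := by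
  unfold Pool.Agent.H629.GC.W Pool.Agent.H629.GC.ev Pool.Agent.H629.GC.S
  rw [Finset.range_eq_Ico]
  simp

theorem mass_eq (hC2 : S_C2) (hB2b : S_B2b) (hH3 : S_H3) (hd : 1 ≤ d) {X X' : ℕ → Cube d → Ω → ℝ}
    {o : Cube d} {δ ε C₀ : ℝ} (hyp : Hyp P X' o δ ε C₀)
    (he : ∀ᵐ ω ∂P, ∀ j x, X' j x ω = X j x ω) (β : ℝ) :
    ∀ᵐ ω ∂P, ∀ n, mass P X β n ω =
      (Z P X' β (Pool.Agent.H629.GC.cubeVol d) 0 n Set.univ ω).toReal := by
  have := hyp.prob
  have hfin : IsFiniteMeasure (Pool.Agent.H629.GC.cubeVol d) := (hH3 d δ hd hyp.δpos).1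
  have hb := hyp.toBase
  have hm : ∀ n x, Measurable fun ω => Real.exp (β * ∑ k ∈ Finset.range n, X' k x ω) :=
    fun n x => Real.measurable_exp.comp
      ((Finset.measurable_fun_sum _ fun k _ => hb.meas k x).const_mul β)
  have hPh : ∀ n x, (Ph P X' [(β, x)] 0 n).toReal =
      ∫ ω', Real.exp (β * ∑ k ∈ Finset.range n, X k x ω') ∂P := by
    intro n x
    have h1 : ∫ ω', Real.exp (β * ∑ k ∈ Finset.range n, X k x ω') ∂P =
        ∫ ω', Real.exp (β * ∑ k ∈ Finset.range n, X' k x ω') ∂P := by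
      refine integral_congr_ae ?_
      filter_upwards [he] with ω hω
      simp only [hω]
    rw [h1, integral_eq_lintegral_of_nonneg_ae (Eventually.of_forall fun ω => (Real.exp_pos _).le)
      (hm n x).aestronglyMeasurable]
    unfold Pool.Agent.H629.GC.Ph
    simp only [W_single]
  have hPh0 : ∀ n x, Ph P X' [(β, x)] 0 n ≠ 0 := by
    intro n x
    obtain ⟨C1, hC1⟩ := hB2b Ω (Cube d) _ _ P X' o δ ε C₀ hyp 1 |β|
    have h1 := (hC1 [(β, x)] 0 n ⟨by simp, by simp, by simp⟩ (Nat.zero_le n)).1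
    intro h0
    rw [h0] at h1
    have h2 : Pool.Agent.H629.GC.ex (Pool.Agent.H629.GC.QQ P X' [(β, x)] 0 n / 2 - C1) = 0 :=
      le_antisymm h1 (zero_le)
    rw [Pool.Agent.H629.GC.ex, ENNReal.ofReal_eq_zero] at h2
    exact absurd h2 (not_le.2 (Real.exp_pos _))
  filter_upwards [he] with ω hω n
  have hgm : Measurable fun x => gh P X' β 0 n x ω :=
    Pool.Agent.H629.GC.Fin.meas_slice (gh P X' β 0 n)
      (Pool.Agent.H629.GC.Fin.measgh hC2 hb (Pool.Agent.H629.GC.cubeVol d) 0 n) ω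
  have h2 : ∀ x, gh P X' β 0 n x ω < ∞ := by
    intro x
    unfold Pool.Agent.H629.GC.gh
    rw [W_single]
    exact ENNReal.div_lt_top ENNReal.ofReal_ne_top (hPh0 n x)
  unfold Pool.Agent.H629.GC.Z
  rw [setLIntegral_univ, ← integral_toReal hgm.aemeasurable (Eventually.of_forall h2)]
  unfold mass
  show ∫ x, _ ∂(Pool.Agent.H629.GC.cubeVol d) = _
  refine integral_congr_ae (Eventually.of_forall fun x => ?_)
  show Real.exp (β * ∑ k ∈ Finset.range n, X k x ω) /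
    (∫ ω', Real.exp (β * ∑ k ∈ Finset.range n, X k x ω') ∂P) = (gh P X' β 0 n x ω).toReal
  unfold Pool.Agent.H629.GC.gh
  rw [ENNReal.toReal_div, hPh, W_single, ENNReal.toReal_ofReal (Real.exp_pos _).le]
  simp only [hω]

/-- the proof, from the parts -/
theorem main (hC2 : S_C2) (hC4 : S_C4) (hCL : S_CL) (hF2 : S_F2) (hG1 : S_G1) (hG2 : S_G2)
    (hB2 : S_B2) (hB2b : S_B2b) (hB3 : S_B3) (hH1 : S_H1) (hH2 : S_H2) (hH3 : S_H3) (hT1 : S_T1)
    (hT2 : S_T2) (hT3 : S_T3)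
    (hP : IsProbabilityMeasure P) (hd : 1 ≤ d)
    (X : ℕ → Cube d → Ω → ℝ) (hX : LogCorrelated P X) (β : ℝ) (hβ : 0 < β)
    (hβd : β ^ 2 < 2 * d) :
    (∃ M : Ω → ℝ, Measurable M ∧ ∀ᵐ ω ∂P, Tendsto (fun n => mass P X β n ω) atTop (𝓝 (M ω))) ∧
    ∀ M : Ω → ℝ, (∀ᵐ ω ∂P, Tendsto (fun n => mass P X β n ω) atTop (𝓝 (M ω))) →
      (∀ p : ℝ, 0 < p →
        (∫⁻ ω, ENNReal.ofReal (M ω ^ p) ∂P < ∞ ↔ p < 2 * d / β ^ 2)) ∧
      Tendsto (fun t : ℝ => Real.log (P.real {ω | t < M ω}) / Real.log t) atTop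
        (𝓝 (-(2 * d / β ^ 2))) := by
  obtain ⟨X', hb, he⟩ := hB3 Ω (Cube d) _ _ P hP X hX.meas hX.cont hX.indep
  obtain ⟨δ, ε, C₀, hyp⟩ := hyp_of hX hb he
  have hfin : IsFiniteMeasure (Pool.Agent.H629.GC.cubeVol d) := (hH3 d δ hd hyp.δpos).1
  have hβd' : β ^ 2 / 2 < d := by linarith
  have hmass := mass_eq hC2 hB2b hH3 hd hyp he β
  have hPh : ∀ (x : Cube d) (m n : ℕ), Ph P X' [(β, x)] m n ≠ ∞ := by
    intro x m n
    obtain ⟨C1, hC1⟩ := hB2b Ω (Cube d) _ _ P X' (origin d) δ ε C₀ hyp 1 |β|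
    rcases le_total m n with hmn | hmn
    · exact ne_top_of_le_ne_top (Pool.Agent.H629.GC.Fin.ex_ne_top _) (hC1 [(β, x)] m n
        ⟨by simp, by simp, by simp⟩ hmn).2
    · have : Finset.Ico m n = ∅ := Finset.Ico_eq_empty (by omega)
      have h1 : ∀ ω, W X' [(β, x)] m n ω = 1 := fun ω => by
        simp [Pool.Agent.H629.GC.W, Pool.Agent.H629.GC.ev, Pool.Agent.H629.GC.S, this]
      simp [Pool.Agent.H629.GC.Ph, h1]
  obtain ⟨M', hM'm, hM't, hM'f⟩ := hG2 Ω (Cube d) _ _ inferInstance _ inferInstance P X' hb β hPh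
    (Pool.Agent.H629.GC.cubeVol d) hfin Set.univ MeasurableSet.univ
  have hlim : ∀ᵐ ω ∂P, Tendsto (fun n => mass P X β n ω) atTop (𝓝 (M' ω).toReal) := by
    filter_upwards [hmass, hM't, hM'f] with ω h1 h2 h3
    have h4 := (ENNReal.tendsto_toReal h3).comp h2
    exact h4.congr fun n => (h1 n).symm
  refine ⟨⟨fun ω => (M' ω).toReal, hM'm.ennreal_toReal, hlim⟩, fun M hM => ?_⟩
  have hMM : ∀ᵐ ω ∂P, M ω = (M' ω).toReal ∧ M' ω ≠ ∞ := by
    filter_upwards [hlim, hM, hM'f] with ω h1 h2 h3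
    exact ⟨tendsto_nhds_unique h2 h1, h3⟩
  have hmomeq : ∀ p : ℝ, 0 < p → ∫⁻ ω, ENNReal.ofReal (M ω ^ p) ∂P = ∫⁻ ω, M' ω ^ p ∂P := by
    intro p hp
    refine lintegral_congr_ae ?_
    filter_upwards [hMM] with ω hω
    rw [hω.1, ← ENNReal.ofReal_rpow_of_nonneg ENNReal.toReal_nonneg hp.le,
      ENNReal.ofReal_toReal hω.2]
  have hpp : ∀ p : ℝ, p < 2 * d / β ^ 2 → β ^ 2 / 2 * p < d := by
    intro p hp
    rw [lt_div_iff₀ (by positivity)] at hp
    linarith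
  have hupper : ∀ p : ℝ, 0 < p → p < 2 * d / β ^ 2 →
      ∫⁻ ω, ENNReal.ofReal (M ω ^ p) ∂P < ∞ := by
    intro p hp hpd
    rw [hmomeq p hp]
    exact Pool.Agent.H629.GC.Fin.upper_lim hC2 hCL hB2 hH1 hH3 hd hyp hp (hpp p hpd) M' hM't
  refine ⟨fun p hp => ⟨fun h => ?_, hupper p hp⟩, ?_⟩
  · by_contra hcon
    rw [hmomeq p hp] at h
    exact h.ne (Pool.Agent.H629.GC.Fin.lower_lim hC2 hC4 hCL hF2 hG1 hB2 hB2b hH1 hH2 hH3 hd hyp hβ
      hβd' (not_lt.1 hcon) M' hM't)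
  · have hdpos : (0 : ℝ) < d := by exact_mod_cast hd
    refine hT2 Ω _ P hP M (2 * d / β ^ 2) (by positivity) ?_ ?_ hupper ?_
    · filter_upwards [hMM] with ω hω
      rw [hω.1]; exact ENNReal.toReal_nonneg
    · exact ⟨fun ω => (M' ω).toReal, hM'm.ennreal_toReal, by
        filter_upwards [hMM] with ω hω using hω.1⟩
    · intro e hepos
      have h1 := Pool.Agent.H629.GC.Fin.tail_lower hC2 hCL hT1 hT3 hB2 hH1 hH2 hH3 hd hyp hβ hβd' M'
        hM't e hepos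
      filter_upwards [h1, eventually_ge_atTop (0 : ℝ)] with t ht ht0
      refine ht.trans (le_of_eq ?_)
      refine measure_congr ?_
      filter_upwards [hMM] with ω hω
      apply propext
      show ENNReal.ofReal t < M' ω ↔ t < M ω
      rw [hω.1, ENNReal.ofReal_lt_iff_lt_toReal ht0 hω.2]

end

/-- **Moments and tails of non-Gaussian multiplicative chaos.** Let `X` be log-correlated fields on
`[0, 1]^d` as in the problem (assumptions (a), (b), (d)) and `0 < β < √(2d)`. The total masses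
converge almost surely to a random variable, and for every almost sure limit `M` and every `p > 0`,
`E[M ^ p] < ∞` if and only if `p < 2 d / β ^ 2`. Moreover `log P(M > t) / log t` tends to
`- 2 d / β ^ 2` as `t → ∞`. -/
theorem result {Ω : Type} [MeasurableSpace Ω] (P : Measure Ω) [IsProbabilityMeasure P] (d : ℕ)
    (hd : 1 ≤ d) (X : ℕ → Cube d → Ω → ℝ) (hX : LogCorrelated P X) (β : ℝ) (hβ : 0 < β)
    (hβd : β ^ 2 < 2 * d) :
    (∃ M : Ω → ℝ, Measurable M ∧ ∀ᵐ ω ∂P, Tendsto (fun n => mass P X β n ω) atTop (𝓝 (M ω))) ∧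
    ∀ M : Ω → ℝ, (∀ᵐ ω ∂P, Tendsto (fun n => mass P X β n ω) atTop (𝓝 (M ω))) →
      (∀ p : ℝ, 0 < p →
        (∫⁻ ω, ENNReal.ofReal (M ω ^ p) ∂P < ∞ ↔ p < 2 * d / β ^ 2)) ∧
      Tendsto (fun t : ℝ => Real.log (P.real {ω | t < M ω}) / Real.log t) atTop
        (𝓝 (-(2 * d / β ^ 2))) := by
  have A1 := Pool.Agent.H629.GC.P.A1.t_A1
  have A1b := Pool.Agent.H629.GC.P.A1.t_A1b
  have A2 := Pool.Agent.H629.GC.P.A2.t_A2
  have A3 := Pool.Agent.H629.GC.P.A3.t_A3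
  have A4 := Pool.Agent.H629.GC.P.A4.t_A4
  have A5 := Pool.Agent.H629.GC.P.A4.t_A5
  have C1 := Pool.Agent.H629.GC.P.C1.t_C1
  have C2 := Pool.Agent.H629.GC.P.C2.t_C2
  have C3 := Pool.Agent.H629.GC.P.C3.t_C3 C1 C2
  have C4 := Pool.Agent.H629.GC.P.C4.t_C4 C1 C2
  have D1 := Pool.Agent.H629.GC.P.D1.t_D1 C3
  have D2 := Pool.Agent.H629.GC.P.D2.t_D2 C3
  have D3 := Pool.Agent.H629.GC.P.D2.t_D3 C3
  have E0 := Pool.Agent.H629.GC.P.E0.t_E0 A1 C2 C3 D3
  have E1 := Pool.Agent.H629.GC.P.E1.t_E1 A1 C1 C2 C3 D1 D2 D3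
  have E2 := Pool.Agent.H629.GC.P.E2.t_E2 A1b C1 C2 C3 D1 D3
  have E3 := Pool.Agent.H629.GC.P.E3.t_E3 A2 C2 C3
  have CL : S_CL := Pool.Agent.H629.GC.P.ST.t_CL E0 E1 E2 E3
  have F1 := Pool.Agent.H629.GC.P.F1.t_F1 A1b A3 C1 C2 C3 D1 D2 D3 E2
  have F2 := Pool.Agent.H629.GC.P.F2.t_F2 A4 A5 C2 E1 E2 F1 CL
  have G1 := Pool.Agent.H629.GC.P.G1.t_G1
  have G2 := Pool.Agent.H629.GC.P.G2.t_G2 C2 C4
  have B1 := Pool.Agent.H629.GC.P.B1.t_B1
  have B2a := Pool.Agent.H629.GC.P.B2a.t_B2a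
  have B2b := Pool.Agent.H629.GC.P.B2b.t_B2b B1
  have B2 := Pool.Agent.H629.GC.B2.t_B2 B2a B2b
  have B3 := Pool.Agent.H629.GC.P.B3.t_B3
  have T1 := Pool.Agent.H629.GC.P.T1.t_T1 A5 C2 E1 E2 F1 CL
  exact main C2 C4 CL F2 G1 G2 B2 B2b B3 Pool.Agent.H629.GC.P.H.t_H1 Pool.Agent.H629.GC.P.H.t_H2
    Pool.Agent.H629.GC.P.H.t_H3 T1 Pool.Agent.H629.GC.P.T2.t_T2 Pool.Agent.H629.GC.P.T3.t_T3
    inferInstance hd X hX β hβ hβd

end

end Pool.Agent.Results.MP_b1920d_pr.MomentsAndTails
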